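import Pool.Agent.W448.FF.Stmts

/-!
Project FF (helper448), part GR: from weights to counting, and the Turan property.
-/

set_option autoImplicit false

namespace Pool.Agent.W168.FF

open Finset Pool.Agent.W448.FF

theorem turan {V : Type} (G : OG V) (hG : NoC4 G) (a b c d : V)
    (h1 : ¬ Bad G a b c) (h2 : ¬ Bad G a b d) (h3 : ¬ Bad G a c d) (h4 : ¬ Bad G b c d) : False := by
  have s := G.asymm
  have tri : ∀ x y, G.arc x y ∨ G.arc y x ∨ (¬ G.arc x y ∧ ¬ G.arc y x) := by
    intro x y; tauto
  simp only [Bad, OG.adj] at h1 h2 h3 h4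
  have k1 := hG a b c d
  have k2 := hG a b d c
  have k3 := hG a c b d
  have k4 := hG a c d b
  have k5 := hG a d b c
  have k6 := hG a d c b
  simp only [OG.adj] at k1 k2 k3 k4 k5 k6
  have sab := s a b
  have sac := s a c
  have sad := s a d
  have sbc := s b c
  have sbd := s b d
  have scd := s c d
  clear s hG
  rcases tri a b with h | h | h <;> rcases tri a c with h' | h' | h' <;> grind

theorem fiber {α : Type} [DecidableEq α] (F : Finset (α × α × α))
    (hF : ∀ t ∈ F, t.1 ≠ t.2.1 ∧ t.1 ≠ t.2.2 ∧ t.2.1 ≠ t.2.2) (e : Finset α) :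
    (F.filter (fun t => ({t.1, t.2.1, t.2.2} : Finset α) = e)).card ≤ 6 := by
  rcases Finset.eq_empty_or_nonempty
    (F.filter (fun t => ({t.1, t.2.1, t.2.2} : Finset α) = e)) with h0 | ⟨⟨a, b, c⟩, h⟩
  · rw [h0]; simp
  · have he := (Finset.mem_filter.1 h).2
    simp only at he
    refine le_trans (Finset.card_le_card (t := ({(a, b, c), (a, c, b), (b, a, c), (b, c, a),
      (c, a, b), (c, b, a)} : Finset (α × α × α))) ?_) Finset.card_le_six
    rintro ⟨x, y, z⟩ ht
    obtain ⟨h1, h2⟩ := Finset.mem_filter.1 ht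
    obtain ⟨d1, d2, d3⟩ := hF _ h1
    simp only at h2 d1 d2 d3
    rw [← he] at h2
    have hx : x ∈ ({a, b, c} : Finset α) := by rw [← h2]; simp
    have hy : y ∈ ({a, b, c} : Finset α) := by rw [← h2]; simp
    have hz : z ∈ ({a, b, c} : Finset α) := by rw [← h2]; simp
    simp only [Finset.mem_insert, Finset.mem_singleton] at hx hy hz ⊢
    rcases hx with rfl | rfl | rfl <;> rcases hy with rfl | rfl | rfl <;>
      rcases hz with rfl | rfl | rfl <;> simp_all

open Classical in
theorem gr : S_GR := by
  intro n G hG hb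
  refine ⟨?_, ?_⟩
  · intro S hS
    obtain ⟨a, T, haT, rfl, hT⟩ := Finset.card_eq_succ.1 hS
    obtain ⟨b, c, d, hbc, hbd, hcd, rfl⟩ := Finset.card_eq_three.1 hT
    simp only [Finset.mem_insert, Finset.mem_singleton, not_or] at haT
    obtain ⟨hab, hac, had⟩ := haT
    by_contra hcon
    push Not at hcon
    refine turan G hG a b c d ?_ ?_ ?_ ?_ <;> intro hB
    · refine hcon {a, b, c} ⟨a, b, c, hab, hac, hbc, rfl, hB⟩ ?_
      intro x; simp only [Finset.mem_insert, Finset.mem_singleton]; tauto
    · refine hcon {a, b, d} ⟨a, b, d, hab, had, hbd, rfl, hB⟩ ?_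
      intro x; simp only [Finset.mem_insert, Finset.mem_singleton]; tauto
    · refine hcon {a, c, d} ⟨a, c, d, hac, had, hcd, rfl, hB⟩ ?_
      intro x; simp only [Finset.mem_insert, Finset.mem_singleton]; tauto
    · refine hcon {b, c, d} ⟨b, c, d, hbc, hbd, hcd, rfl, hB⟩ ?_
      intro x; simp only [Finset.mem_insert, Finset.mem_singleton]
      intro hx; exact Or.inr hx
  · intro H hH
    rcases Nat.eq_zero_or_pos n with rfl | hn
    · simp
    have hn0 : (0 : ℝ) < n := by exact_mod_cast hn
    have hw : Wt (fun _ : Fin n => (1 : ℝ) / n) := by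
      refine ⟨fun _ => by positivity, ?_⟩
      simp only [Finset.sum_const, Finset.card_univ, Fintype.card_fin, nsmul_eq_mul]
      field_simp
    have h1 := hb _ hw
    set B : Finset (Fin n × Fin n × Fin n) :=
      (univ : Finset (Fin n × Fin n × Fin n)).filter (fun t => Bad G t.1 t.2.1 t.2.2) with hBdef
    have hcount : (n : ℝ) ^ 3 * b G (fun _ : Fin n => (1 : ℝ) / n) = B.card := by
      have : (B.card : ℝ) = ∑ x : Fin n, ∑ y : Fin n, ∑ z : Fin n, bd G x y z := by
        rw [hBdef, Finset.card_filter]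
        push_cast
        rw [Fintype.sum_prod_type]
        refine Finset.sum_congr rfl fun x _ => ?_
        rw [Fintype.sum_prod_type]
        refine Finset.sum_congr rfl fun y _ => Finset.sum_congr rfl fun z _ => ?_
        simp only [bd]
      rw [this]
      simp only [b, bv]
      simp only [Finset.mul_sum]
      refine Finset.sum_congr rfl fun x _ => Finset.sum_congr rfl fun y _ =>
        Finset.sum_congr rfl fun z _ => ?_
      field_simp
    have hlow : 4 * (n : ℝ) ^ 3 ≤ 9 * B.card := by
      rw [← hcount]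
      have : (n : ℝ) ^ 3 * (4 / 9) ≤ (n : ℝ) ^ 3 * b G (fun _ : Fin n => (1 : ℝ) / n) :=
        mul_le_mul_of_nonneg_left h1 (by positivity)
      linarith
    have hlow' : 4 * n ^ 3 ≤ 9 * B.card := by exact_mod_cast hlow
    -- split
    set D : Finset (Fin n × Fin n × Fin n) :=
      B.filter (fun t => t.1 ≠ t.2.1 ∧ t.1 ≠ t.2.2 ∧ t.2.1 ≠ t.2.2) with hD
    have hDcard : D.card ≤ 6 * H.card := by
      have := Finset.card_le_mul_card_image
        (f := fun t : Fin n × Fin n × Fin n => ({t.1, t.2.1, t.2.2} : Finset (Fin n))) D 6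
        (fun e _ => fiber D (fun t ht => (Finset.mem_filter.1 ht).2) e)
      refine this.trans (Nat.mul_le_mul_left _ (Finset.card_le_card ?_))
      intro e he
      obtain ⟨t, ht, rfl⟩ := Finset.mem_image.1 he
      obtain ⟨ht1, d1, d2, d3⟩ := Finset.mem_filter.1 ht
      exact hH _ ⟨t.1, t.2.1, t.2.2, d1, d2, d3, rfl, (Finset.mem_filter.1 ht1).2⟩
    have hE : (B.filter (fun t => ¬ (t.1 ≠ t.2.1 ∧ t.1 ≠ t.2.2 ∧ t.2.1 ≠ t.2.2))).card ≤
        3 * n ^ 2 := by
      have e2 : (univ : Finset (Fin n × Fin n)).card = n ^ 2 := by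
        simp [sq]
      refine le_trans (Finset.card_le_card (t :=
        ((univ : Finset (Fin n × Fin n)).image (fun q => (q.1, q.1, q.2))) ∪
        (((univ : Finset (Fin n × Fin n)).image (fun q => (q.1, q.2, q.1))) ∪
        ((univ : Finset (Fin n × Fin n)).image (fun q => (q.2, q.1, q.1))))) ?_) ?_
      · rintro ⟨x, y, z⟩ ht
        have h := (Finset.mem_filter.1 ht).2
        simp only at h
        simp only [Finset.mem_union, Finset.mem_image, Finset.mem_univ, true_and, Prod.exists,
          Prod.mk.injEq]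
        by_cases h1 : x = y
        · exact Or.inl ⟨x, z, rfl, h1, rfl⟩
        by_cases h2 : x = z
        · exact Or.inr (Or.inl ⟨x, y, rfl, rfl, h2⟩)
        by_cases h3 : y = z
        · exact Or.inr (Or.inr ⟨y, x, rfl, rfl, h3⟩)
        · exact absurd ⟨h1, h2, h3⟩ h
      · refine (Finset.card_union_le _ _).trans ?_
        have i1 := Finset.card_image_le (s := (univ : Finset (Fin n × Fin n)))
          (f := fun q => (q.1, q.1, q.2))
        have i2 := Finset.card_union_le ((univ : Finset (Fin n × Fin n)).image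
          (fun q => (q.1, q.2, q.1))) ((univ : Finset (Fin n × Fin n)).image
          (fun q => (q.2, q.1, q.1)))
        have i3 := Finset.card_image_le (s := (univ : Finset (Fin n × Fin n)))
          (f := fun q => (q.1, q.2, q.1))
        have i4 := Finset.card_image_le (s := (univ : Finset (Fin n × Fin n)))
          (f := fun q => (q.2, q.1, q.1))
        rw [e2] at i1 i3 i4
        omega
    have hsplit : B.card = D.card +
        (B.filter (fun t => ¬ (t.1 ≠ t.2.1 ∧ t.1 ≠ t.2.2 ∧ t.2.1 ≠ t.2.2))).card :=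
      (Finset.card_filter_add_card_filter_not _).symm
    omega

end Pool.Agent.W168.FF
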